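import Pool.Agent.Helper238.Rob.U

set_option autoImplicit false

open MeasureTheory

namespace Pool.Agent.Results.MP_2a4334_an.RobinAttractive

/-- The Robin Rayleigh quotient of a function `u` on a planar open set `Ω` with parameter `α`.
The boundary term is the integral of `u ^ 2` over the topological boundary of `Ω` with respect to
arc length (the one dimensional Hausdorff measure). -/
noncomputable def rayleigh (Ω : Set (EuclideanSpace ℝ (Fin 2))) (α : ℝ)
    (u : EuclideanSpace ℝ (Fin 2) → ℝ) : ℝ :=
  ((∫ x in Ω, ‖fderiv ℝ u x‖ ^ 2)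
    + α * ∫ x in frontier Ω, u x ^ 2 ∂(Measure.hausdorffMeasure 1)) / ∫ x in Ω, u x ^ 2

/-- The lowest Robin eigenvalue: the infimum of the Rayleigh quotient over continuously
differentiable functions on the plane which do not vanish identically on `Ω`. For a triangle the
restrictions of these functions are dense in the Sobolev space of `Ω` and the trace is continuous,
so this is the minimum over the Sobolev space. -/
noncomputable def lowestRobin (Ω : Set (EuclideanSpace ℝ (Fin 2))) (α : ℝ) : ℝ :=
  sInf {r : ℝ | ∃ u : EuclideanSpace ℝ (Fin 2) → ℝ, ContDiff ℝ 1 u ∧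
    (∫ x in Ω, u x ^ 2) ≠ 0 ∧ r = rayleigh Ω α u}

/-- A bounded open triangle: the interior of the convex hull of three affinely independent points. -/
def IsOpenTriangle (T : Set (EuclideanSpace ℝ (Fin 2))) : Prop :=
  ∃ A B C : EuclideanSpace ℝ (Fin 2), AffineIndependent ℝ ![A, B, C] ∧
    T = interior (convexHull ℝ {A, B, C})

/-- An open equilateral triangle. -/
def IsOpenEquilateralTriangle (E : Set (EuclideanSpace ℝ (Fin 2))) : Prop :=
  ∃ A B C : EuclideanSpace ℝ (Fin 2), AffineIndependent ℝ ![A, B, C] ∧
    dist A B = dist B C ∧ dist B C = dist C A ∧ E = interior (convexHull ℝ {A, B, C})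

/-- Sanity check: for an open triangle and a negative parameter, the set of Rayleigh quotients is
bounded below and nonempty, so `lowestRobin` is a true infimum. -/
theorem rayleigh_bddBelow_nonempty (T : Set (EuclideanSpace ℝ (Fin 2))) (hT : IsOpenTriangle T)
    (α : ℝ) (hα : α < 0) :
    BddBelow {r : ℝ | ∃ u : EuclideanSpace ℝ (Fin 2) → ℝ, ContDiff ℝ 1 u ∧
      (∫ x in T, u x ^ 2) ≠ 0 ∧ r = rayleigh T α u} ∧
    {r : ℝ | ∃ u : EuclideanSpace ℝ (Fin 2) → ℝ, ContDiff ℝ 1 u ∧
      (∫ x in T, u x ^ 2) ≠ 0 ∧ r = rayleigh T α u}.Nonempty := by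
  obtain ⟨A, B, C, h, rfl⟩ := hT
  rw [affineIndependent_iff_not_collinear_set] at h
  have hD := Pool.Agent.Helper238.cr_ne_of_not_collinear h
  refine ⟨Pool.Agent.Helper238.Rob.lam1_set_bdd hD hα, _, fun _ => 1, contDiff_const, ?_, rfl⟩
  have hv := Pool.Agent.Helper238.Rob.volume_otri hD
  intro h0
  simp only [one_pow, integral_const, smul_eq_mul, mul_one, Measure.real,
    Measure.restrict_apply_univ] at h0
  have hcr : 0 < |Pool.Agent.Helper238.cr (B - A) (C - A)| := abs_pos.2 hD
  have e : (volume (interior (Pool.Agent.Helper238.tri A B C))).toReal = 0 := h0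
  rw [hv] at e
  linarith

/-- For every negative Robin parameter, the equilateral triangle maximizes the lowest Robin
eigenvalue among all triangles of the same area. -/
theorem result :
    ∀ α : ℝ, α < 0 → ∀ T E : Set (EuclideanSpace ℝ (Fin 2)),
      IsOpenTriangle T → IsOpenEquilateralTriangle E → volume T = volume E →
      lowestRobin T α ≤ lowestRobin E α := by
  rintro α hα T E ⟨A, B, C, hT, rfl⟩ ⟨A', B', C', hE, e1, e2, rfl⟩ hvol
  exact Pool.Agent.Helper238.Rob.main hT hE e1 e2 hvol hα

end Pool.Agent.Results.MP_2a4334_an.RobinAttractive
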